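import Pool.Agent.helper51.VR.Spec

/-!
# Project vr (MP_24e2e7_nt), row EXL: extension of homomorphisms to the rational model
-/

set_option autoImplicit false

namespace Pool.Agent.VR

open Pool.Agent.RB NumberField IsDedekindDomain Module
open scoped nonZeroDivisors Real Classical IsMulCommutative

section EXLsec

variable {F H : Type} [Field F] [NumberField F] [Field H] [NumberField H] [Algebra F H]
  [IsAbelianGalois F H]

/-- the inclusion of the integral group ring as a ring homomorphism -/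
noncomputable def EXL_tq : MonoidAlgebra ℤ (H ≃ₐ[F] H) →+* QGr F H :=
  MonoidAlgebra.mapRingHom (H ≃ₐ[F] H) (Int.castRingHom ℚ)

theorem EXL_toQ (y : MonoidAlgebra ℤ (H ≃ₐ[F] H)) : toQ y = EXL_tq y := rfl

/-- rational numbers in the group ring -/
noncomputable def EXL_cq : ℚ →+* QGr F H :=
  algebraMap ℚ (MonoidAlgebra ℚ (H ≃ₐ[F] H))

theorem EXL_inv (n : ℕ) (hn : n ≠ 0) : (EXL_cq ((n : ℚ)⁻¹) : QGr F H) * (n : QGr F H) = 1 := by
  have h : (n : QGr F H) = EXL_cq (n : ℚ) := (map_natCast _ n).symm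
  rw [h, ← map_mul, inv_mul_cancel₀ (Nat.cast_ne_zero.2 hn), map_one]

theorem EXL_cancel (n : ℕ) (hn : n ≠ 0) (x y : QGr F H)
    (h : (n : QGr F H) * x = (n : QGr F H) * y) : x = y := by
  calc x = (EXL_cq ((n : ℚ)⁻¹) * (n : QGr F H)) * x := by rw [EXL_inv n hn, one_mul]
    _ = EXL_cq ((n : ℚ)⁻¹) * ((n : QGr F H) * x) := by rw [mul_assoc]
    _ = EXL_cq ((n : ℚ)⁻¹) * ((n : QGr F H) * y) := by rw [h]
    _ = (EXL_cq ((n : ℚ)⁻¹) * (n : QGr F H)) * y := by rw [mul_assoc]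
    _ = y := by rw [EXL_inv n hn, one_mul]

theorem EXL_sg (σ : H ≃ₐ[F] H) :
    (EXL_tq (MonoidAlgebra.single σ 1) : QGr F H) = sg σ := by
  have h := MonoidAlgebra.mapRingHom_single (M := H ≃ₐ[F] H) (Int.castRingHom ℚ) σ (1 : ℤ)
  rw [map_one] at h
  exact h

omit [NumberField F] [NumberField H] [IsAbelianGalois F H] in
theorem EXL_torsion (n : ℕ) (hn : n ≠ 0) (y : MonoidAlgebra ℤ (H ≃ₐ[F] H)) (h : n • y = 0) :
    y = 0 := by
  ext σ
  have h1 : (n • y).coeff σ = 0 := by rw [h]; rfl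
  have h2 : (n • y).coeff σ = n • y.coeff σ := rfl
  rw [h2, nsmul_eq_mul] at h1
  have h3 : (n : ℤ) ≠ 0 := by exact_mod_cast hn
  exact (mul_eq_zero.1 h1).resolve_left h3

end EXLsec

theorem EXL (hPWR : PWR_stmt) : EXL_stmt := by
  intro F H _ _ _ _ _ _ _ r D W _ _ ι hι φ hφ
  obtain ⟨hst, -, hgh, -⟩ := hPWR F H (D.T : Set (HOS F)) (Set.range D.v)
  obtain ⟨hφ1, hφinv, hφpow⟩ := hgh φ hφ
  -- `ι` as a homomorphism
  obtain ⟨ι', hι'⟩ : ∃ ι' : UU D →* Multiplicative W, ∀ x, ι' x = Multiplicative.ofAdd (ι x) :=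
    ⟨MonoidHom.mk' (fun x => Multiplicative.ofAdd (ι x)) (fun x y => by
      rw [hι.mul, ofAdd_add]), fun x => rfl⟩
  have hpow : ∀ (x : UU D) (n : ℕ), ι (x ^ n) = n • ι x := by
    intro x n
    have h := map_pow ι' x n
    rw [hι', hι', ← ofAdd_nsmul] at h
    exact Multiplicative.ofAdd.injective h
  have hinv : ∀ x : UU D, ι x⁻¹ = - ι x := by
    intro x
    have h := map_inv ι' x
    rw [hι', hι', ← ofAdd_neg] at h
    exact Multiplicative.ofAdd.injective h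
  -- the values of `φ`
  have hmul : ∀ x y : UU D, φ ((x * y : UU D) : Hˣ) = φ (x : Hˣ) + φ (y : Hˣ) :=
    fun x y => hφ.mul x x.2 y y.2
  have hpow' : ∀ (x : UU D) (n : ℕ), φ ((x ^ n : UU D) : Hˣ) = n • φ (x : Hˣ) :=
    fun x n => hφpow x x.2 n
  have hinv' : ∀ x : UU D, φ ((x⁻¹ : UU D) : Hˣ) = - φ (x : Hˣ) := fun x => hφinv x x.2
  have hzero : ∀ x : UU D, ι x = 0 → φ (x : Hˣ) = 0 := by
    intro x hx
    obtain ⟨n, hn, h⟩ := hι.ker x hx
    apply EXL_torsion n hn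
    rw [← hpow', h]
    exact hφ1
  -- comparison of two representations
  have hcmp : ∀ (n m : ℕ) (x y : UU D) (w : W), n • w = ι x → m • w = ι y →
      (m : QGr F H) * EXL_tq (φ (x : Hˣ)) = (n : QGr F H) * EXL_tq (φ (y : Hˣ)) := by
    intro n m x y w hx hy
    have h1 : ι (x ^ m * (y ^ n)⁻¹) = 0 := by
      rw [hι.mul, hinv, hpow, hpow, ← hx, ← hy, smul_smul, smul_smul, Nat.mul_comm]
      exact add_neg_cancel _
    have h2 := hzero _ h1
    rw [hmul, hinv', hpow', hpow', add_neg_eq_zero] at h2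
    have h3 := congrArg (EXL_tq (F := F) (H := H)) h2
    rw [map_nsmul, map_nsmul, nsmul_eq_mul, nsmul_eq_mul] at h3
    exact h3
  choose nn xx hnn hxx using hι.denom
  obtain ⟨f, hf⟩ : ∃ f : W → QGr F H, ∀ w, f w = EXL_cq ((nn w : ℚ)⁻¹) * EXL_tq (φ (xx w : Hˣ)) :=
    ⟨_, fun _ => rfl⟩
  have hval : ∀ (n : ℕ) (x : UU D) (w : W), n • w = ι x →
      (n : QGr F H) * f w = EXL_tq (φ (x : Hˣ)) := by
    intro n x w hx
    have h1 := hcmp n (nn w) x (xx w) w hx (hxx w)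
    rw [hf]
    calc (n : QGr F H) * (EXL_cq ((nn w : ℚ)⁻¹) * EXL_tq (φ (xx w : Hˣ)))
        = EXL_cq ((nn w : ℚ)⁻¹) * ((n : QGr F H) * EXL_tq (φ (xx w : Hˣ))) := by ring
      _ = EXL_cq ((nn w : ℚ)⁻¹) * ((nn w : QGr F H) * EXL_tq (φ (x : Hˣ))) := by rw [h1]
      _ = (EXL_cq ((nn w : ℚ)⁻¹) * (nn w : QGr F H)) * EXL_tq (φ (x : Hˣ)) := by ring
      _ = EXL_tq (φ (x : Hˣ)) := by rw [EXL_inv (nn w) (hnn w), one_mul]
  have hadd : ∀ w w' : W, f (w + w') = f w + f w' := by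
    intro w w'
    have hne : nn w * nn w' ≠ 0 := Nat.mul_ne_zero (hnn w) (hnn w')
    apply EXL_cancel (nn w * nn w') hne
    have h1 : (nn w * nn w') • (w + w') = ι (xx w ^ nn w' * xx w' ^ nn w) := by
      rw [hι.mul, hpow, hpow, ← hxx w, ← hxx w', smul_smul, smul_smul, smul_add,
        Nat.mul_comm (nn w') (nn w)]
    rw [hval _ _ _ h1, hmul, hpow', hpow', map_add, map_nsmul, map_nsmul, nsmul_eq_mul,
      nsmul_eq_mul, ← hval (nn w) (xx w) w (hxx w), ← hval (nn w') (xx w') w' (hxx w')]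
    push_cast
    ring
  obtain ⟨g, hg⟩ : ∃ g : W →+ QGr F H, ∀ w, g w = f w :=
    ⟨AddMonoidHom.mk' f hadd, fun _ => rfl⟩
  -- group elements
  have hsg : ∀ (σ : H ≃ₐ[F] H) (w : W), f (sg σ • w) = sg σ * f w := by
    intro σ w
    have hy : Units.map ((σ : H →+* H) : H →* H) ((xx w : UU D) : Hˣ) ∈ UU D :=
      hst σ _ (xx w).2 _ rfl
    have h1 : ι ⟨_, hy⟩ = sg σ • ι (xx w) := hι.equiv σ (xx w) ⟨_, hy⟩ rfl
    have h2 : nn w • (sg σ • w) = ι ⟨_, hy⟩ := by
      rw [h1, ← hxx w, smul_comm]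
    apply EXL_cancel (nn w) (hnn w)
    rw [hval _ _ _ h2]
    have h3 : φ (Units.map ((σ : H →+* H) : H →* H) ((xx w : UU D) : Hˣ)) =
        MonoidAlgebra.single σ 1 * φ (xx w : Hˣ) := hφ.equiv σ _ (xx w).2 _ hy rfl
    show EXL_tq (φ (Units.map ((σ : H →+* H) : H →* H) ((xx w : UU D) : Hˣ))) = _
    rw [h3, map_mul, EXL_sg, ← hval (nn w) (xx w) w (hxx w)]
    ring
  -- rational numbers
  have hcq : ∀ (q : ℚ) (w : W), f ((EXL_cq q : QGr F H) • w) = EXL_cq q * f w := by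
    intro q w
    have hd : q.den ≠ 0 := q.den_nz
    apply EXL_cancel q.den hd
    have h1 : (q.den : ℚ) * q = (q.num : ℚ) := by
      rw [mul_comm]
      exact Rat.mul_den_eq_num q
    have h2 : ((q.den : QGr F H) * EXL_cq q) = (q.num : QGr F H) := by
      rw [← map_natCast (EXL_cq (F := F) (H := H)), ← map_mul, h1, map_intCast]
    have h3 : (q.den : QGr F H) * f ((EXL_cq q : QGr F H) • w) =
        f ((q.den : QGr F H) • ((EXL_cq q : QGr F H) • w)) := by
      rw [← hg, ← hg, Nat.cast_smul_eq_nsmul, map_nsmul, nsmul_eq_mul]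
    rw [h3, smul_smul, h2, ← mul_assoc, h2, Int.cast_smul_eq_zsmul, ← hg, ← hg, map_zsmul,
      zsmul_eq_mul]
  have hlin : ∀ (a : MonoidAlgebra ℚ (H ≃ₐ[F] H)) (w : W),
      f ((show QGr F H from a) • w) = (show QGr F H from a) * f w := by
    intro a
    induction a using MonoidAlgebra.induction_on with
    | of σ =>
      intro w
      exact hsg σ w
    | add a b ha hb =>
      intro w
      have h1 : (show QGr F H from (a + b)) = (show QGr F H from a) + (show QGr F H from b) := rfl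
      rw [h1, add_smul, hadd, ha, hb, add_mul]
    | smul q a ha =>
      intro w
      have h1 : (show QGr F H from (q • a)) = EXL_cq q * (show QGr F H from a) :=
        Algebra.smul_def q a
      rw [h1, ← smul_smul, hcq, ha, mul_assoc]
  refine ⟨{ toFun := f, map_add' := hadd, map_smul' := fun a w => hlin a w }, ?_⟩
  intro x
  have h1 := hval 1 x (ι x) (one_smul _ _)
  rw [Nat.cast_one, one_mul] at h1
  exact h1

end Pool.Agent.VR
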